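import Pool.Agent.helper38.OV.Spec

/-! # Row ov:SD3 (MP_bf63dc_nt): the smooth part (adapted from the file SD3.lean of helper72) -/

set_option autoImplicit false

namespace Pool.Agent.OV

open Finset Real Pool.Agent.AT Pool.Agent.helper85.FC Pool.Agent.OM

theorem SD3_mem {R Y : ℕ} {x : ℤ} : x ∈ XX R Y ↔ -(R : ℤ) ≤ x ∧ x < Y + R := by
  unfold XX
  rw [Finset.mem_Ico]

/-- support of the averages -/
theorem SD3_supp (M T Y : ℕ) (f : ℤ → ℝ) (hs : ∀ x, x ∉ XX 0 Y → f x = 0) (x : ℤ)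
    (hx : x < -((M : ℤ) * T) ∨ (Y : ℤ) ≤ x) : sm M T f x = 0 := by
  unfold sm
  rw [Finset.sum_eq_zero, zero_div]
  intro τ hτ
  rw [Finset.mem_range] at hτ
  apply hs
  rw [SD3_mem]
  have h1 : (M : ℤ) * τ ≤ M * T := mul_le_mul_of_nonneg_left (by exact_mod_cast hτ.le) (by positivity)
  have h2 : (0 : ℤ) ≤ (M : ℤ) * τ := by positivity
  rintro ⟨h3, h4⟩
  push_cast at h3 h4
  rcases hx with h5 | h5 <;> linarith

/-- one shift -/
theorem SD3_one (h1 : OM.SHF_stmt) (h2 : OM.SML_stmt) (M T s R Y : ℕ) (hT : 1 ≤ T) (hs : s ≤ T) (hR : 2 * (M * T) ≤ R)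
    (f : ℤ → ℝ) (hf : ∀ x, |f x| ≤ 1) (hfs : ∀ x, x ∉ XX 0 Y → f x = 0) (g : ℤ → ℝ) (hg : ∀ v, |g v| ≤ 1) (p c : ℤ) :
    |∑ x ∈ XX R Y, (g (p * x - c) - g (p * x - c + p * (M * s))) * sm M T f x| ≤ 2 * s * Y / T := by
  have hA : (0 : ℤ) ≤ (M : ℤ) * s := by positivity
  have hA2 : (M : ℤ) * s ≤ M * T := mul_le_mul_of_nonneg_left (by exact_mod_cast hs) (by positivity)
  have hR' : 2 * ((M : ℤ) * T) ≤ R := by exact_mod_cast hR
  have e1 := h1 (M * T) R Y ((M : ℤ) * s) (by rw [abs_of_nonneg hA]; push_cast; linarith)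
    (fun x => g (p * x - c) * sm M T f (x - M * s)) (by
      intro x hx
      have : sm M T f (x - M * s) = 0 := by
        apply SD3_supp M T Y f hfs
        by_contra h3
        push Not at h3
        apply hx
        rw [SD3_mem]
        push_cast
        constructor <;> linarith [h3.1, h3.2]
      show g (p * x - c) * sm M T f (x - M * s) = 0
      rw [this, mul_zero])
  have e2 : ∑ x ∈ XX R Y, (g (p * x - c) - g (p * x - c + p * (M * s))) * sm M T f x =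
      ∑ x ∈ XX R Y, g (p * x - c) * (sm M T f x - sm M T f (x - M * s)) := by
    have e3 : ∑ x ∈ XX R Y, g (p * x - c + p * (M * s)) * sm M T f x =
        ∑ x ∈ XX R Y, g (p * x - c) * sm M T f (x - M * s) := by
      rw [← e1]
      apply Finset.sum_congr rfl
      intro x _
      show g (p * x - c + p * (M * s)) * sm M T f x = g (p * (x + M * s) - c) * sm M T f (x + M * s - M * s)
      rw [add_sub_cancel_right]
      congr 2
      ring
    have e4 : ∀ x ∈ XX R Y, (g (p * x - c) - g (p * x - c + p * (M * s))) * sm M T f x =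
        g (p * x - c) * sm M T f x - g (p * x - c + p * (M * s)) * sm M T f x := fun x _ => by ring
    rw [Finset.sum_congr rfl e4, Finset.sum_sub_distrib, e3, ← Finset.sum_sub_distrib]
    apply Finset.sum_congr rfl
    intro x _
    ring
  rw [e2]
  refine (Finset.abs_sum_le_sum_abs _ _).trans ?_
  refine (Finset.sum_le_sum fun x _ => ?_).trans (h2 M T s R Y hT hs f hf hfs)
  rw [abs_mul]
  calc |g (p * x - c)| * |sm M T f x - sm M T f (x - M * s)| ≤ 1 * |sm M T f x - sm M T f (x - M * s)| :=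
        mul_le_mul_of_nonneg_right (hg _) (abs_nonneg _)
    _ = |sm M T f x - sm M T f (x - M * s)| := one_mul _

/-- the average over `t` -/
theorem SD3_avg (h1 : OM.SHF_stmt) (h2 : OM.SML_stmt) (Y M1 M : ℕ) (κ : ℝ) (A B e T T' : ℕ → ℕ) (m : ℕ)
    (hM : M = B m * M1 * e m) (hT : 1 ≤ T m) (hT' : 1 ≤ T' m) (hY : M1 * T' m ≤ Y) (hκ1 : κ ≤ 1) (hκ : (e m : ℝ) * T m ≤ κ * T' m)
    (W : ℕ → ℤ → ℝ) (hW : ∀ m v, 0 ≤ W m v ∧ W m v ≤ 1) (f : ℤ → ℝ) (hf : ∀ x, |f x| ≤ 1) (hfs : ∀ x, x ∉ XX 0 Y → f x = 0) (y : ℤ) :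
    |∑ x ∈ XX (3 * Y) Y, (W m ((B m : ℤ) * x - (A m : ℤ) * y) -
      sm M (T m) (W m) ((B m : ℤ) * x - (A m : ℤ) * y)) * sm M1 (T' m) f x| ≤
      2 * κ * Y := by
  have hT0 : (0 : ℝ) < T m := by exact_mod_cast hT
  have hT'0 : (0 : ℝ) < T' m := by exact_mod_cast hT'
  have e1 : ∀ x : ℤ, W m ((B m : ℤ) * x - (A m : ℤ) * y) -
      sm M (T m) (W m) ((B m : ℤ) * x - (A m : ℤ) * y) =
      (∑ t ∈ range (T m), (W m ((B m : ℤ) * x - (A m : ℤ) * y) -
        W m ((B m : ℤ) * x - (A m : ℤ) * y + (B m : ℤ) * ((M1 : ℤ) * ((e m * t : ℕ) : ℤ))))) / T m := by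
    intro x
    unfold sm
    rw [Finset.sum_sub_distrib, Finset.sum_const, Finset.card_range, nsmul_eq_mul, sub_div, mul_div_cancel_left₀ _ hT0.ne']
    congr 2
    apply Finset.sum_congr rfl
    intro t _
    congr 2
    rw [hM]
    push_cast
    ring
  have e2 : ∑ x ∈ XX (3 * Y) Y, (W m ((B m : ℤ) * x - (A m : ℤ) * y) -
      sm M (T m) (W m) ((B m : ℤ) * x - (A m : ℤ) * y)) * sm M1 (T' m) f x =
      (∑ t ∈ range (T m), ∑ x ∈ XX (3 * Y) Y, (W m ((B m : ℤ) * x - (A m : ℤ) * y) -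
        W m ((B m : ℤ) * x - (A m : ℤ) * y + (B m : ℤ) * ((M1 : ℤ) * ((e m * t : ℕ) : ℤ)))) *
        sm M1 (T' m) f x) / T m := by
    rw [Finset.sum_comm, Finset.sum_div]
    apply Finset.sum_congr rfl
    intro x _
    rw [e1, ← Finset.sum_mul]
    ring
  rw [e2, abs_div, abs_of_pos hT0, div_le_iff₀ hT0]
  refine (Finset.abs_sum_le_sum_abs _ _).trans ?_
  have h3 : ∀ t ∈ range (T m), |∑ x ∈ XX (3 * Y) Y, (W m ((B m : ℤ) * x - (A m : ℤ) * y) -
        W m ((B m : ℤ) * x - (A m : ℤ) * y + (B m : ℤ) * ((M1 : ℤ) * ((e m * t : ℕ) : ℤ)))) *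
        sm M1 (T' m) f x| ≤ 2 * κ * Y := by
    intro t ht
    rw [Finset.mem_range] at ht
    have hs : ((e m * t : ℕ) : ℝ) ≤ κ * T' m := by
      refine le_trans ?_ hκ
      push_cast
      exact mul_le_mul_of_nonneg_left (by exact_mod_cast ht.le) (by positivity)
    have hs' : e m * t ≤ T' m := by
      have h4 : ((e m * t : ℕ) : ℝ) ≤ (T' m : ℝ) := hs.trans (by nlinarith)
      exact_mod_cast h4
    refine (SD3_one h1 h2 M1 (T' m) (e m * t) (3 * Y) Y hT' hs' (by omega) f hf hfs (W m) ?_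
      ((B m : ℤ)) ((A m : ℤ) * y)).trans ?_
    · intro v
      rw [abs_of_nonneg (hW m v).1]
      exact (hW m v).2
    · rw [div_le_iff₀ hT'0]
      have h6 : (0 : ℝ) ≤ 2 * Y := by positivity
      calc 2 * (((e m * t : ℕ) : ℝ)) * Y = 2 * Y * ((e m * t : ℕ) : ℝ) := by ring
        _ ≤ 2 * Y * (κ * T' m) := mul_le_mul_of_nonneg_left hs h6
        _ = 2 * κ * Y * T' m := by ring
  refine (Finset.sum_le_sum h3).trans ?_
  rw [Finset.sum_const, Finset.card_range, nsmul_eq_mul]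
  apply le_of_eq
  ring

theorem SD3_count (L : ℕ) : 2 * ∑ m ∈ Ico 1 L, (L - m) ≤ L ^ 2 := by
  induction L with
  | zero => simp
  | succ L ih =>
    rcases Nat.eq_zero_or_pos L with rfl | hL
    · simp
    · rw [Finset.sum_Ico_succ_top hL]
      have h1 : ∑ m ∈ Ico 1 L, (L + 1 - m) = ∑ m ∈ Ico 1 L, (L - m) + (L - 1) := by
        have h2 : ∀ m ∈ Ico 1 L, L + 1 - m = (L - m) + 1 := by
          intro m hm
          rw [Finset.mem_Ico] at hm
          omega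
        rw [Finset.sum_congr rfl h2, Finset.sum_add_distrib, Finset.sum_const, Nat.card_Ico, smul_eq_mul, mul_one]
      rw [h1]
      have h3 : (L + 1) ^ 2 = L ^ 2 + 2 * L + 1 := by ring
      omega

theorem SD3 (hSHF : OM.SHF_stmt) (hSML : OM.SML_stmt) : SD3_stmt := by
  intro L Y M1 M κ A B e T T' hL hκ0 hκ1 hT W φ ψ hW hφ hψ hsφ hsψ
  have hL0 : (0 : ℝ) < L := by exact_mod_cast hL
  have hψs : ∀ j : ℕ, ∑ y ∈ XX (3 * Y) Y, |ψ j y| ≤ Y := by
    intro j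
    have e1 : ∑ y ∈ XX (3 * Y) Y, |ψ j y| = ∑ y ∈ (XX (3 * Y) Y).filter (fun y => y ∈ XX 0 Y), |ψ j y| := by
      rw [Finset.sum_filter]
      apply Finset.sum_congr rfl
      intro y _
      split_ifs with h3
      · rfl
      · rw [hsψ j y h3, abs_zero]
    rw [e1]
    have h3 : ∑ y ∈ (XX (3 * Y) Y).filter (fun y => y ∈ XX 0 Y), |ψ j y| ≤ ∑ _y ∈ (XX (3 * Y) Y).filter (fun y => y ∈ XX 0 Y), (1 : ℝ) :=
      Finset.sum_le_sum fun y _ => hψ j y
    rw [Finset.sum_const, nsmul_eq_mul, mul_one] at h3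
    refine h3.trans ?_
    have h4 : ((XX (3 * Y) Y).filter (fun y => y ∈ XX 0 Y)).card ≤ (XX 0 Y).card := by
      apply Finset.card_le_card
      intro y hy
      exact (Finset.mem_filter.mp hy).2
    have h5 : (XX 0 Y).card = Y := by
      unfold XX
      rw [Int.card_Ico]
      simp
    rw [h5] at h4
    exact_mod_cast h4
  have e1 : ∀ m ∈ Ico 1 L, ∑ x ∈ XX (3 * Y) Y, ∑ y ∈ XX (3 * Y) Y, (W m ((B m : ℤ) * x - (A m : ℤ) * y) -
      sm M (T m) (W m) ((B m : ℤ) * x - (A m : ℤ) * y)) *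
      gm L (fun i x => sm M1 (T' m) (φ i) x) ψ m x y =
      ∑ i ∈ Ico m L, ∑ y ∈ XX (3 * Y) Y, ψ (i - m) y * ∑ x ∈ XX (3 * Y) Y, (W m ((B m : ℤ) * x - (A m : ℤ) * y) -
      sm M (T m) (W m) ((B m : ℤ) * x - (A m : ℤ) * y)) * sm M1 (T' m) (φ i) x := by
    intro m _
    have f1 : ∀ i ∈ Ico m L, ∑ y ∈ XX (3 * Y) Y, ψ (i - m) y * ∑ x ∈ XX (3 * Y) Y, (W m ((B m : ℤ) * x - (A m : ℤ) * y) -
        sm M (T m) (W m) ((B m : ℤ) * x - (A m : ℤ) * y)) * sm M1 (T' m) (φ i) x =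
        ∑ x ∈ XX (3 * Y) Y, ∑ y ∈ XX (3 * Y) Y, (W m ((B m : ℤ) * x - (A m : ℤ) * y) -
        sm M (T m) (W m) ((B m : ℤ) * x - (A m : ℤ) * y)) *
        (sm M1 (T' m) (φ i) x * ψ (i - m) y) := by
      intro i _
      rw [Finset.sum_comm]
      apply Finset.sum_congr rfl
      intro y _
      rw [Finset.mul_sum]
      apply Finset.sum_congr rfl
      intro x _
      ring
    rw [Finset.sum_congr rfl f1]
    symm
    rw [Finset.sum_comm]
    apply Finset.sum_congr rfl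
    intro x _
    rw [Finset.sum_comm]
    apply Finset.sum_congr rfl
    intro y _
    unfold gm
    rw [Finset.mul_sum]
  rw [Finset.sum_congr rfl e1]
  refine (Finset.abs_sum_le_sum_abs _ _).trans ?_
  have h3 : ∀ m ∈ Ico 1 L, |∑ i ∈ Ico m L, ∑ y ∈ XX (3 * Y) Y, ψ (i - m) y * ∑ x ∈ XX (3 * Y) Y, (W m ((B m : ℤ) * x - (A m : ℤ) * y) -
      sm M (T m) (W m) ((B m : ℤ) * x - (A m : ℤ) * y)) * sm M1 (T' m) (φ i) x| ≤
      ((L - m : ℕ) : ℝ) * (Y * (2 * κ * Y)) := by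
    intro m hm
    rw [Finset.mem_Ico] at hm
    refine (Finset.abs_sum_le_sum_abs _ _).trans ?_
    have h4 : ∀ i ∈ Ico m L, |∑ y ∈ XX (3 * Y) Y, ψ (i - m) y * ∑ x ∈ XX (3 * Y) Y, (W m ((B m : ℤ) * x - (A m : ℤ) * y) -
        sm M (T m) (W m) ((B m : ℤ) * x - (A m : ℤ) * y)) * sm M1 (T' m) (φ i) x| ≤
        Y * (2 * κ * Y) := by
      intro i _
      refine (Finset.abs_sum_le_sum_abs _ _).trans ?_
      calc ∑ y ∈ XX (3 * Y) Y, |ψ (i - m) y * ∑ x ∈ XX (3 * Y) Y, (W m ((B m : ℤ) * x - (A m : ℤ) * y) -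
        sm M (T m) (W m) ((B m : ℤ) * x - (A m : ℤ) * y)) * sm M1 (T' m) (φ i) x|
          ≤ ∑ y ∈ XX (3 * Y) Y, |ψ (i - m) y| * (2 * κ * Y) := by
            apply Finset.sum_le_sum
            intro y _
            rw [abs_mul]
            exact mul_le_mul_of_nonneg_left (SD3_avg hSHF hSML Y M1 M κ A B e T T' m (hT m (Finset.mem_Ico.2 hm)).1 (hT m (Finset.mem_Ico.2 hm)).2.1
              (hT m (Finset.mem_Ico.2 hm)).2.2.1 (hT m (Finset.mem_Ico.2 hm)).2.2.2.1 hκ1 (hT m (Finset.mem_Ico.2 hm)).2.2.2.2 W hW (φ i) (hφ i)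
              (fun x hx => hsφ i x hx) y) (abs_nonneg _)
        _ = (∑ y ∈ XX (3 * Y) Y, |ψ (i - m) y|) * (2 * κ * Y) := by rw [Finset.sum_mul]
        _ ≤ Y * (2 * κ * Y) := mul_le_mul_of_nonneg_right (hψs _) (by positivity)
    refine (Finset.sum_le_sum h4).trans ?_
    rw [Finset.sum_const, Nat.card_Ico, nsmul_eq_mul]
  refine (Finset.sum_le_sum h3).trans ?_
  rw [← Finset.sum_mul]
  have h5 : 2 * ∑ m ∈ Ico 1 L, ((L - m : ℕ) : ℝ) ≤ (L : ℝ) ^ 2 := by exact_mod_cast SD3_count L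
  have h6 : (0 : ℝ) ≤ κ * (Y : ℝ) ^ 2 := by positivity
  calc (∑ m ∈ Ico 1 L, ((L - m : ℕ) : ℝ)) * (Y * (2 * κ * Y)) = (2 * ∑ m ∈ Ico 1 L, ((L - m : ℕ) : ℝ)) * (κ * (Y : ℝ) ^ 2) := by
        ring
    _ ≤ (L : ℝ) ^ 2 * (κ * (Y : ℝ) ^ 2) := mul_le_mul_of_nonneg_right h5 h6
    _ = κ * (L : ℝ) ^ 2 * (Y : ℝ) ^ 2 := by ring

end Pool.Agent.OV
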